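import Pool.Agent.Q267.AP.Stm

/-!
# Project AP (helper267): the constant term of a period
-/

set_option autoImplicit false

open Finset

namespace Pool.Agent.Q285.AP

open Pool.Agent.Q267.ST Pool.Agent.Q267.AP

variable {ι A : Type} [Fintype ι] [DecidableEq ι] [CommRing A]

theorem prod_single {κ : Type} (s : Finset κ) (u : κ → ι → ℤ) (b : κ → A) :
    ∏ i ∈ s, (AddMonoidAlgebra.single (u i) (b i) : LP ι A) =
      AddMonoidAlgebra.single (∑ i ∈ s, u i) (∏ i ∈ s, b i) := by
  classical
  induction s using Finset.induction_on with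
  | empty => rfl
  | insert a s ha ih =>
    rw [prod_insert ha, sum_insert ha, prod_insert ha, ih, AddMonoidAlgebra.single_mul_single]

theorem theta_X (o : ι) (M : Matrix ι ι A) (i : ι) :
    PowerSeries.constantCoeff (chart (fun i => if i = o then 0 else 1) (0 : A) 0 M
      (MvPolynomial.X i)) = AddMonoidAlgebra.single (Pi.single o 1) (M i o) := by
  have h1 : lin (M.map Polynomial.C) (MvPolynomial.X i) =
      ∑ j, MvPolynomial.C (Polynomial.C (M i j)) * MvPolynomial.X j := by
    unfold lin
    rw [MvPolynomial.eval₂Hom_X']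
    rfl
  have h2 : ∀ j, toL (scal (fun i => if i = o then 0 else 1) (0 : A) 0
      (MvPolynomial.C (Polynomial.C (M i j)) * MvPolynomial.X j)) =
      (cst (PowerSeries.C (M i j)) * cst (PowerSeries.X ^ (if j = o then 0 else 1)) *
        xm (Pi.single j 1) : PowerSeries (LP ι A)) := by
    intro j
    unfold scal
    rw [map_mul, MvPolynomial.eval₂Hom_C, MvPolynomial.eval₂Hom_X']
    rw [RingHom.comp_apply, Polynomial.coe_eval₂RingHom, Polynomial.eval₂_C]
    unfold toL
    rw [map_mul, map_mul, MvPolynomial.eval₂Hom_C, MvPolynomial.eval₂Hom_C,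
      MvPolynomial.eval₂Hom_X', RingHom.comp_apply, RingHom.comp_apply, ← mul_assoc]
    by_cases h : j = o <;> simp [h]
  have h3 : ∀ j, PowerSeries.constantCoeff (cst (PowerSeries.C (M i j)) *
      cst (PowerSeries.X ^ (if j = o then 0 else 1)) * xm (Pi.single j 1) :
        PowerSeries (LP ι A)) =
      if j = o then AddMonoidAlgebra.single (Pi.single o 1) (M i o) else 0 := by
    intro j
    rw [map_mul, map_mul]
    unfold cst xm
    split_ifs with h
    · subst h
      simp [AddMonoidAlgebra.single_mul_single]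
    · simp
  change PowerSeries.constantCoeff (toL (scal _ (0 : A) 0 (lin (M.map Polynomial.C)
    (MvPolynomial.X i)))) = _
  rw [h1, map_sum, map_sum, map_sum]
  simp only [h2, h3]
  rw [Finset.sum_ite_eq' univ o]
  simp

theorem theta_monomial (o : ι) (M : Matrix ι ι A) (v : ι →₀ ℕ) :
    PowerSeries.constantCoeff (chart (fun i => if i = o then 0 else 1) (0 : A) 0 M
      (MvPolynomial.monomial v 1)) = AddMonoidAlgebra.single ((∑ i, v i) • Pi.single o (1 : ℤ))
        (MvPolynomial.eval (fun i => M i o) (MvPolynomial.monomial v 1)) := by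
  rw [MvPolynomial.monomial_eq, MvPolynomial.C_1, one_mul, Finsupp.prod_fintype _ _ (fun i => by
    rw [pow_zero]), map_prod, map_prod]
  simp only [map_pow, theta_X, AddMonoidAlgebra.single_pow]
  rw [prod_single, ← Finset.sum_smul, MvPolynomial.eval_monomial, one_mul,
    Finsupp.prod_fintype _ _ (fun i => by rw [pow_zero])]

theorem const : S_Const := by
  intro ι A _ _ _ o E c' M ψ w hψ hw hsum
  have h1 : ∀ (u : ι → ℤ) (F : PowerSeries (LP ι A)), PowerSeries.constantCoeff (cx u F) =
      (PowerSeries.constantCoeff F).coeff u := by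
    intro u F
    unfold cx
    rw [← PowerSeries.coeff_zero_eq_constantCoeff_apply, PowerSeries.coeff_mk,
      ← PowerSeries.coeff_zero_eq_constantCoeff_apply]
  unfold per
  rw [h1, map_mul, theta_monomial, map_mul, map_mul, hψ, mul_one]
  have h2 : PowerSeries.constantCoeff (cst (PowerSeries.C c') : PowerSeries (LP ι A)) =
      AddMonoidAlgebra.single 0 c' := by
    unfold cst
    simp
  have h3 : ∀ ν : ι → ℤ, PowerSeries.constantCoeff (xm ν : PowerSeries (LP ι A)) =
      AddMonoidAlgebra.single ν 1 := by
    intro ν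
    unfold xm
    simp
  have h4 : ∑ i, (w - one ι) i + 1 = E := by
    have h5 : ∑ i, ((w - one ι) i + 1) = ∑ i, w i := by
      refine Finset.sum_congr rfl fun i _ => ?_
      have := hw i
      change (w i - 1) + 1 = w i
      omega
    rw [Finset.sum_add_distrib, Finset.sum_const, Finset.card_univ, smul_eq_mul, mul_one, hsum] at h5
    have h6 : 0 < Fintype.card ι := Fintype.card_pos_iff.2 ⟨o⟩
    omega
  rw [h2, h3, AddMonoidAlgebra.single_mul_single, AddMonoidAlgebra.single_mul_single, zero_add,
    mul_one]
  have h5 : (∑ i, (w - one ι) i) • Pi.single o (1 : ℤ) +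
      (fun i => if i = o then (-E : ℤ) else -1) = fun _ : ι => (-1 : ℤ) := by
    funext i
    rw [Pi.add_apply, Pi.smul_apply]
    by_cases hi : i = o
    · subst hi
      rw [Pi.single_eq_same, if_pos rfl, nsmul_eq_mul, mul_one, ← h4]
      push_cast
      ring
    · rw [Pi.single_eq_of_ne hi, if_neg hi, smul_zero, zero_add]
  rw [h5, AddMonoidAlgebra.coeff_single, Finsupp.single_eq_same, mul_comm]

end Pool.Agent.Q285.AP
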